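import Mathlib
import Pool.Agent.MDSR.Table
import Pool.Agent.MDSR.Table8
import Pool.Agent.MDSR.Exist

/-! The repair lower bound is attained for `(q, r, l) = (q, 3, 2)` for every prime power `q ≥ 3`
for which `r - 1 = 2` does not divide `q - 1`. -/

namespace Pool.Agent.Results.MP_e76747_lc.AllEvenQ

open Pool.Agent.MDSR

/-- the mean of a finite family -/
noncomputable def avg {n : ℕ} (f : Fin n → ℕ) : ℚ := (∑ i, (f i : ℚ)) / n

/-- the maximum of a finite family -/
def top {n : ℕ} (f : Fin n → ℕ) : ℕ := Finset.univ.sup f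

/-- The parity-check blocks `H` over the finite field `F` define an `(n, n - r, l)` MDS array code
for which all four quantities `β_avg`, `β_max`, `γ_avg`, `γ_max` are equal to the bound `B`. -/
def AttainsAll {F : Type} [Field F] [Fintype F] {n r l : ℕ}
    (H : Fin n → Matrix (Fin r × Fin l) (Fin l) F) : Prop :=
  r < n ∧ IsMDS H ∧
    avg (beta H) = bound n r l (Fintype.card F) ∧
    (top (beta H) : ℚ) = bound n r l (Fintype.card F) ∧
    avg (gamma H) = bound n r l (Fintype.card F) ∧
    (top (gamma H) : ℚ) = bound n r l (Fintype.card F)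

/-- The triple `(q, r, l)` is attained (in the strong sense). -/
def Attained (q r l : ℕ) : Prop :=
  ∃ (F : Type) (_ : Field F) (_ : Fintype F), Fintype.card F = q ∧
    ∃ (n : ℕ) (H : Fin n → Matrix (Fin r × Fin l) (Fin l) F), AttainsAll H

theorem attains_of_const {F : Type} [Field F] [Fintype F] {n r l v : ℕ}
    (H : Fin n → Matrix (Fin r × Fin l) (Fin l) F) (hn : r < n) (hM : IsMDS H)
    (hb : ∀ i, beta H i = v) (hg : ∀ i, gamma H i = v)
    (hv : (v : ℚ) = bound n r l (Fintype.card F)) : AttainsAll H := by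
  have hn0 : (n : ℚ) ≠ 0 := by
    have : n ≠ 0 := by omega
    exact_mod_cast this
  have hne : (Finset.univ : Finset (Fin n)).Nonempty := ⟨⟨0, by omega⟩, Finset.mem_univ _⟩
  have h1 : beta H = fun _ => v := funext hb
  have h2 : gamma H = fun _ => v := funext hg
  have ha : avg (fun _ : Fin n => v) = (v : ℚ) := by
    unfold avg
    rw [Finset.sum_const, Finset.card_univ, Fintype.card_fin, nsmul_eq_mul]
    field_simp
  have ht : top (fun _ : Fin n => v) = v := by
    unfold top
    exact Finset.sup_const hne v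
  refine ⟨hn, hM, ?_, ?_, ?_, ?_⟩
  · rw [h1, ha, hv]
  · rw [h1, ht, hv]
  · rw [h2, ha, hv]
  · rw [h2, ht, hv]

theorem four : Attained 4 3 2 := by
  refine ⟨F4, inferInstance, inferInstance, F4.card_eq, 18, Hc, ?_⟩
  apply attains_of_const Hc (by norm_num) mds beta_eq gamma_eq
  rw [F4.card_eq]
  unfold bound
  norm_num

theorem eight : Attained 8 3 2 := by
  refine ⟨F8, inferInstance, inferInstance, F8.card_eq, 36, T8.Hc, ?_⟩
  apply attains_of_const T8.Hc (by norm_num) T8.mds T8.beta_eq T8.gamma_eq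
  rw [F8.card_eq]
  unfold bound
  norm_num

theorem large {F : Type} [Field F] [Fintype F] [CharP F 2] (hF : 16 ≤ Fintype.card F) :
    ∃ (n : ℕ) (H : Fin n → Matrix (Fin 3 × Fin 2) (Fin 2) F), AttainsAll H := by
  obtain ⟨w, ⟨P⟩⟩ := exists_params hF
  have hlen := P.len_ge
  refine ⟨P.len, P.HH, ?_⟩
  apply attains_of_const P.HH (by omega) P.mdsHH P.beta_eq P.gamma_eq
  have e1 : 2 * (Fintype.card F + 1) ≤ 2 * (P.len - 1) := by omega
  have e2 : 1 ≤ P.len := by omega
  rw [Nat.cast_sub e1]
  push_cast [Nat.cast_sub e2]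
  unfold bound
  have hq : ((Fintype.card F : ℕ) : ℚ) - 1 ≠ 0 := by
    have : (1 : ℚ) < (Fintype.card F : ℕ) := by
      have h1 : 1 < Fintype.card F := by omega
      exact_mod_cast h1
    linarith
  field_simp
  ring

theorem pow_two (h : ℕ) (hh : 2 ≤ h) : Attained (2 ^ h) 3 2 := by
  by_cases h2 : h = 2
  · subst h2; exact four
  by_cases h3 : h = 3
  · subst h3; exact eight
  have h4 : 4 ≤ h := by omega
  letI : Fintype (GaloisField 2 h) := Fintype.ofFinite _
  have hc : Fintype.card (GaloisField 2 h) = 2 ^ h := by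
    rw [← Nat.card_eq_fintype_card]
    exact GaloisField.card 2 h (by omega)
  refine ⟨GaloisField 2 h, inferInstance, inferInstance, hc, ?_⟩
  apply large
  rw [hc]
  calc 16 = 2 ^ 4 := by norm_num
    _ ≤ 2 ^ h := Nat.pow_le_pow_right (by norm_num) h4

theorem result : ∀ q : ℕ, IsPrimePow q → 3 ≤ q → ¬ ((3 - 1) ∣ (q - 1)) → Attained q 3 2 := by
  intro q hq h3 hd
  rw [isPrimePow_nat_iff] at hq
  obtain ⟨p, k, hp, hk, rfl⟩ := hq
  have hev : Even (p ^ k) := by
    by_contra ho
    rw [Nat.not_even_iff_odd] at ho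
    obtain ⟨s, hs⟩ := ho
    apply hd
    exact ⟨s, by omega⟩
  rw [Nat.even_pow] at hev
  have hp2 : p = 2 := (Nat.Prime.even_iff hp).1 hev.1
  subst hp2
  apply pow_two
  by_contra hlt
  have : k = 1 := by omega
  rw [this] at h3
  norm_num at h3

end Pool.Agent.Results.MP_e76747_lc.AllEvenQ
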